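import Pool.Agent.H73.TS.TargetsB

/-! Module LAD: density of the lattice packing. -/

open MeasureTheory Set Metric Filter
open scoped ENNReal Topology Pointwise

namespace Pool.Agent.H33.TS

open Pool.Agent.H73.TS

theorem Lat_countable {d : ℕ} (w : Fin d → E d) : (Lat w).Countable := by
  refine (Set.countable_range fun m : Fin d → ℤ => ∑ i, (m i : ℝ) • w i).mono ?_
  rintro x ⟨m, rfl⟩
  exact ⟨m, rfl⟩

theorem vol_translate {d : ℕ} (t : E d) (K : Set (E d)) :
    volume ((fun x => t + x) '' K) = volume K := by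
  rw [Set.image_add_left]
  exact measure_preimage_add volume (-t) K

theorem vol_interior {d : ℕ} {K : Set (E d)} (hK : Convex ℝ K) : volume (interior K) = volume K :=
  measure_congr (interior_ae_eq_of_null_frontier (hK.addHaar_frontier volume))

theorem count_le {d : ℕ} {K : Set (E d)} (hK : Convex ℝ K) {T : Set (E d)} (hT : T.Countable)
    (hp : Packing K T) (C : Set (E d)) (hC : ∀ t ∈ T, (fun x => t + x) '' K ⊆ C) :
    ((T.encard : ℕ∞) : ℝ≥0∞) * volume K ≤ volume ((⋃ t ∈ T, (fun x => t + x) '' K) ∩ C) := by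
  have h1 : volume (⋃ t ∈ T, interior ((fun x => t + x) '' K)) =
      ((T.encard : ℕ∞) : ℝ≥0∞) * volume K := by
    rw [measure_biUnion hT]
    · have h2 : ∀ p : T, volume (interior ((fun x => (p : E d) + x) '' K)) = volume K := by
        intro p
        rw [vol_interior (hK.translate _), vol_translate]
      simp only [h2]
      exact ENNReal.tsum_set_const T (volume K)
    · intro t ht s hs hts
      exact Set.disjoint_iff_inter_eq_empty.2 (hp t ht s hs hts)
    · intro t _
      exact isOpen_interior.measurableSet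
  rw [← h1]
  refine measure_mono ?_
  intro y hy
  obtain ⟨t, ht, hy⟩ := mem_iUnion₂.1 hy
  have hy' := interior_subset hy
  exact ⟨mem_iUnion₂.2 ⟨t, ht, hy'⟩, hC t ht hy'⟩

theorem cube_smul {d : ℕ} {R : ℝ} (hR : 0 < R) :
    (fun x => R • x) '' (Cube d 1) = Cube d R := by
  ext y
  constructor
  · rintro ⟨x, hx, rfl⟩ i
    have h1 := hx i
    show |R * x i| ≤ R
    rw [abs_mul, abs_of_pos hR]
    nlinarith
  · intro hy
    refine ⟨R⁻¹ • y, fun i => ?_, ?_⟩
    · show |R⁻¹ * y i| ≤ 1
      rw [abs_mul, abs_of_pos (inv_pos.2 hR), inv_mul_le_one₀ hR]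
      exact hy i
    · show R • R⁻¹ • y = y
      rw [smul_smul, mul_inv_cancel₀ hR.ne', one_smul]

theorem cube_compact (d : ℕ) : IsCompact (Cube d 1) := by
  refine Metric.isCompact_of_isClosed_isBounded ?_ ?_
  · have : Cube d 1 = ⋂ i, {x : E d | |x i| ≤ 1} := by
      ext x
      simp [Cube]
    rw [this]
    refine isClosed_iInter fun i => isClosed_le ?_ continuous_const
    have : Continuous fun x : E d => x i := by fun_prop
    exact this.abs
  · refine (isBounded_closedBall (x := (0 : E d)) (r := Real.sqrt d)).subset ?_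
    intro x hx
    rw [mem_closedBall_zero_iff, EuclideanSpace.norm_eq]
    refine Real.sqrt_le_sqrt ?_
    calc ∑ i, ‖x i‖ ^ 2 ≤ ∑ _i : Fin d, (1 : ℝ) := by
          refine Finset.sum_le_sum fun i _ => ?_
          have h1 : ‖x i‖ ≤ 1 := hx i
          have h2 := norm_nonneg (x i)
          nlinarith
      _ = d := by simp

theorem cube_convex (d : ℕ) : Convex ℝ (Cube d 1) := by
  intro x hx y hy a b ha hb hab i
  have h1 := hx i
  have h2 := hy i
  show |a * x i + b * y i| ≤ 1
  calc |a * x i + b * y i| ≤ |a * x i| + |b * y i| := abs_add_le _ _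
    _ = a * |x i| + b * |y i| := by rw [abs_mul, abs_mul, abs_of_nonneg ha, abs_of_nonneg hb]
    _ ≤ a * 1 + b * 1 := add_le_add (mul_le_mul_of_nonneg_left h1 ha)
        (mul_le_mul_of_nonneg_left h2 hb)
    _ = 1 := by rw [mul_one, mul_one, hab]

theorem cube_zero (d : ℕ) : (0 : E d) ∈ interior (Cube d 1) := by
  rw [mem_interior_iff_mem_nhds]
  refine Filter.mem_of_superset (Metric.ball_mem_nhds (0 : E d) one_pos) ?_
  intro x hx i
  rw [mem_ball_zero_iff] at hx
  exact (PiLp.norm_apply_le x i).trans hx.le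

/-- abstract comparison of the limits -/
theorem lim_le {q g : ℝ → ℝ≥0∞} {a p : ℝ≥0∞} (ha : a ≠ ⊤) (hp : p⁻¹ ≤ liminf g atTop)
    (hq : ∀ R : ℝ, 0 < R → a * g R ≤ q R) : a / p ≤ limsup q atTop := by
  calc a / p = a * p⁻¹ := div_eq_mul_inv _ _
    _ ≤ a * liminf g atTop := mul_le_mul_right hp a
    _ ≤ a * limsup g atTop := mul_le_mul_right (liminf_le_limsup) a
    _ = limsup (fun R => a * g R) atTop := (ENNReal.limsup_const_mul_of_ne_top ha).symm
    _ ≤ limsup q atTop := limsup_le_limsup ((eventually_gt_atTop 0).mono hq)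

theorem pf_LAD (hLAT : T_LAT) (hLAC : T_LAC) : T_LAD := by
  intro d w v K hd hw hKc hK hKP
  have hfin : volume K ≠ ⊤ := hKc.measure_lt_top.ne
  obtain ⟨hpack, -⟩ := hLAT d w v K hw hKP
  have hnt : Nontrivial (E d) := by
    have : Nonempty (Fin d) := ⟨⟨0, hd⟩⟩
    infer_instance
  have htr : ∀ (t : E d) (C : Set (E d)), (fun x => t + x) '' (Par w v) ⊆ C →
      (fun x => t + x) '' K ⊆ C := fun t C h => (Set.image_mono hKP).trans h
  constructor
  · refine lim_le hfin (hLAC d w v hd hw (closedBall 0 1) (isCompact_closedBall _ _)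
      (convex_closedBall _ _) (ball_subset_interior_closedBall (mem_ball_self one_pos))) ?_
    intro R hR
    have hOm : (fun x : E d => R • x) '' closedBall (0 : E d) 1 = closedBall 0 R := by
      have := smul_unitClosedBall_of_nonneg (E := E d) hR.le
      exact this
    rw [hOm, Measure.addHaar_closedBall_eq_addHaar_ball volume (0 : E d) R, ← mul_div_assoc]
    refine ENNReal.div_le_div_right ?_ _
    set S := {t ∈ Lat w | (fun x => t + x) '' (Par w v) ⊆ closedBall (0 : E d) R} with hS
    have h1 := count_le hK (T := S) ((Lat_countable w).mono (sep_subset _ _))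
      (fun t ht s hs hts => hpack t ht.1 s hs.1 hts) (closedBall 0 R)
      (fun t ht => htr t _ ht.2)
    rw [mul_comm]
    refine h1.trans ?_
    have h2 : ((⋃ t ∈ S, (fun x => t + x) '' K) ∩ closedBall (0 : E d) R) ⊆
        ((⋃ t ∈ Lat w, (fun x => t + x) '' K) ∩ ball (0 : E d) R) ∪ sphere 0 R := by
      rintro y ⟨hy1, hy2⟩
      obtain ⟨t, ht, hy⟩ := mem_iUnion₂.1 hy1
      rw [← ball_union_sphere] at hy2
      rcases hy2 with hy2 | hy2
      · exact Or.inl ⟨mem_iUnion₂.2 ⟨t, ht.1, hy⟩, hy2⟩
      · exact Or.inr hy2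
    refine (measure_mono h2).trans ((measure_union_le _ _).trans ?_)
    rw [Measure.addHaar_sphere volume (0 : E d) R, add_zero]
  · refine lim_le hfin (hLAC d w v hd hw (Cube d 1) (cube_compact d) (cube_convex d)
      (cube_zero d)) ?_
    intro R hR
    rw [cube_smul hR, ← mul_div_assoc]
    refine ENNReal.div_le_div_right ?_ _
    have h2 : ∀ t : {t : E d // t ∈ Lat w ∧ (fun x => t + x) '' K ⊆ Cube d R},
        volume ((fun x => (t : E d) + x) '' K) = volume K := fun t => vol_translate _ _
    simp only [h2]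
    have h3 : ∑' _ : {t : E d // t ∈ Lat w ∧ (fun x => t + x) '' K ⊆ Cube d R}, volume K =
        (({t : E d | t ∈ Lat w ∧ (fun x => t + x) '' K ⊆ Cube d R}.encard : ℕ∞) : ℝ≥0∞) *
          volume K := ENNReal.tsum_set_const _ _
    rw [h3, mul_comm]
    refine mul_le_mul_left ?_ _
    rw [ENat.toENNReal_le]
    exact Set.encard_le_encard fun t ht => ⟨ht.1, htr t _ ht.2⟩

end Pool.Agent.H33.TS
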