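import Pool.Agent.H73.TS.Targets

/-! Module ROT: a rotation moves a unit vector to the first basis vector. -/

namespace Pool.Agent.H33.TS

open Pool.Agent.H73.TS

theorem pf_ROT : T_ROT := by
  intro n e he
  have hv : Orthonormal ℝ (({0} : Set (Fin (n + 1))).domRestrict fun _ => e) := by
    constructor
    · intro _
      exact he
    · intro i j hij
      exact absurd (Subsingleton.elim i j) hij
  obtain ⟨b, hb⟩ := hv.exists_orthonormalBasis_extension_of_card_eq (by simp)
  refine ⟨b.repr, fun x => ?_⟩
  rw [b.repr_apply_apply, hb 0 rfl]

end Pool.Agent.H33.TS
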